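import Mathlib
import Pool.Agent.Q177.FreeTopKR

/-!
# MP_c880a5_gt: `F₄(C ⊕ D)` is a `k_R`-space for every discrete space `D`
-/

set_option autoImplicit false

universe u

namespace Pool.Agent.Results.MP_c880a5_gt.SeqPlusDiscrete

open Set Topology Filter

/-- The topology of the free topological group (in the sense of Markov) on `X`: the finest group
topology on the free group on the set `X` for which the inclusion of the generators is
continuous. -/
@[reducible]
def markovTopology (X : Type u) [τ : TopologicalSpace X] : TopologicalSpace (FreeGroup X) :=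
  (sInf {t : GroupTopology (FreeGroup X) |
    @Continuous X (FreeGroup X) τ t.toTopologicalSpace FreeGroup.of}).toTopologicalSpace

/-- The set `Fₙ(X)` of all elements of the free group of reduced length at most `n`, that is, of
all elements which are represented by some word of length at most `n`. -/
def F (X : Type u) (n : ℕ) : Type u :=
  {w : FreeGroup X // ∃ L : List (X × Bool), L.length ≤ n ∧ FreeGroup.mk L = w}

/-- `Fₙ(X)` carries the subspace topology of the free topological group. -/
instance (X : Type u) [TopologicalSpace X] (n : ℕ) : TopologicalSpace (F X n) :=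
  (markovTopology X).induced Subtype.val

/-- `Y` is a `k_R`-space: it is Tychonoff, and every real function on `Y` whose restriction to each
compact subset is continuous is continuous. -/
def IsKRSpace (Y : Type u) [TopologicalSpace Y] : Prop :=
  T35Space Y ∧ ∀ f : Y → ℝ, (∀ K : Set Y, IsCompact K → ContinuousOn f K) → Continuous f

/-- The convergent sequence `{0} ∪ {1/m : m ≥ 1} ⊆ ℝ`. -/
def C : Set ℝ := {x | x = 0 ∨ ∃ m : ℕ, 1 ≤ m ∧ x = 1 / (m : ℝ)}

lemma isCompact_C : IsCompact C := by
  have h : Tendsto (fun n : ℕ => 1 / ((n : ℝ) + 1)) atTop (𝓝 0) :=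
    tendsto_one_div_add_atTop_nhds_zero_nat
  have h1 := h.isCompact_insert_range
  have h2 : C = insert 0 (range fun n : ℕ => 1 / ((n : ℝ) + 1)) := by
    ext x
    constructor
    · rintro (rfl | ⟨m, hm, rfl⟩)
      · exact Or.inl rfl
      · refine Or.inr ⟨m - 1, ?_⟩
        have : ((m - 1 : ℕ) : ℝ) + 1 = m := by
          rw [← Nat.cast_succ]
          congr 1
          omega
        simp only [this]
    · rintro (rfl | ⟨n, rfl⟩)
      · exact Or.inl rfl
      · exact Or.inr ⟨n + 1, by omega, by simp⟩
  rw [h2]
  exact h1

/-- For every discrete space `D` (in particular for every uncountable one) the space `F₄(C ⊕ D)` is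
a `k_R`-space. -/
theorem result (D : Type u) [TopologicalSpace D] [DiscreteTopology D] :
    IsKRSpace (F (C ⊕ D) 4) := by
  have hcomp : CompactSpace C := isCompact_iff_compactSpace.1 isCompact_C
  have hX : IsCompact {x : C ⊕ D | ¬ IsOpen ({x} : Set (C ⊕ D))} := by
    have hclosed : IsClosed {x : C ⊕ D | ¬ IsOpen ({x} : Set (C ⊕ D))} := by
      rw [← isOpen_compl_iff]
      have : {x : C ⊕ D | ¬ IsOpen ({x} : Set (C ⊕ D))}ᶜ =
          ⋃ x ∈ {x : C ⊕ D | IsOpen ({x} : Set (C ⊕ D))}, {x} := by
        ext x
        simp
      rw [this]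
      exact isOpen_biUnion fun x hx => hx
    refine (isCompact_range (continuous_inl (X := C) (Y := D))).of_isClosed_subset hclosed ?_
    rintro (x | x) hx
    · exact ⟨x, rfl⟩
    · exfalso
      apply hx
      have := isOpenMap_inr (X := C) (Y := D) {x} (isOpen_discrete _)
      simpa using this
  exact @Q177.FreeTop.kR_four (C ⊕ D) _ (markovTopology (C ⊕ D))
    (Q177.FreeTop.isFreeTop_sInf (C ⊕ D)) _ hX

end Pool.Agent.Results.MP_c880a5_gt.SeqPlusDiscrete
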